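import Pool.Agent.Lib.MP_5c786f_co.Final

/-!
# MP_5c786f_co: the Mycielskian increases the OR capacity of joins of attained graphs
-/

namespace Pool.Agent.Results.MP_5c786f_co.JoinStrict

open Pool.Agent.Lib.MP_5c786f_co

/-- First part: let `G` be a finite graph, `S_1, …, S_m` sets of vertices of `G^{∨T}` that are
pairwise completely joined, and `Q_i` a clique of `(G^{∨T})^{∨k_i}` with all letters in `S_i`. If
`C_OR(G)^T ≤ ∑ |Q_i|^{1/k_i}`, then `C_OR(M(G)) > C_OR(G)`. Second part: an example, the join of `a`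
pentagons and `K_n`, where the capacity `a √5 + n` is attained at no finite power. -/
theorem result :
    (∀ (V : Type) [Finite V] [Nonempty V] (G : SimpleGraph V),
      ∃ c c' : ℝ, IsOrCap G c ∧ IsOrCap (mycielskian G 2) c' ∧
        ∀ (T m : ℕ) (k : Fin m → ℕ) (S : Fin m → Set (Fin T → V))
          (Q : ∀ i, Finset (Fin (k i) → Fin T → V)),
          1 ≤ T → (∀ i, 1 ≤ k i) →
          (∀ i i', i ≠ i' → ∀ x ∈ S i, ∀ y ∈ S i', (orPow G (Fin T)).Adj x y) →
          (∀ i, (orPow (orPow G (Fin T)) (Fin (k i))).IsClique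
            (Q i : Set (Fin (k i) → Fin T → V)) ∧ ∀ w ∈ Q i, ∀ j, w j ∈ S i) →
          c ^ T ≤ ∑ i, ((Q i).card : ℝ) ^ ((k i : ℝ)⁻¹) → c < c') ∧
    (∀ a n : ℕ, 1 ≤ a → 1 ≤ n →
      IsOrCap (pentJoin a n) (a * √5 + n) ∧
      (∀ t : ℕ, 1 ≤ t →
        ((orPow (pentJoin a n) (Fin t)).cliqueNum : ℝ) < (a * √5 + n) ^ t) ∧
      ∃ c' : ℝ, IsOrCap (mycielskian (pentJoin a n) 2) c' ∧ a * √5 + n < c') := by
  refine ⟨?_, ?_⟩
  · intro V _ _ G
    obtain ⟨c, hc⟩ := exists_orCap G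
    obtain ⟨c', hc'⟩ := exists_orCap (mycielskian G 2)
    refine ⟨c, c', hc, hc', ?_⟩
    intro T m k S Q hT hk hS hQ hsum
    exact final_strict G T m k S Q hT hk hS (fun i => (hQ i).1) (fun i => (hQ i).2) c c' hc hc'
      hsum
  · intro a n ha hn
    refine ⟨pent_cap a n ha, pent_not_attained a n ha hn, ?_⟩
    obtain ⟨c', hc'⟩ := exists_orCap (mycielskian (pentJoin a n) 2)
    exact ⟨c', hc', pent_strict a n ha c' hc'⟩

end Pool.Agent.Results.MP_5c786f_co.JoinStrict
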