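import Pool.Agent.Lib.MP_5c786f_co.ThreePent

/-!
# MP_5c786f_co: `r = 3`, triangle free graphs with attained capacity
-/

namespace Pool.Agent.Results.MP_5c786f_co.TriangleFreeLevelThree

open Pool.Agent.Lib.MP_5c786f_co

/-- First part: let `Q` be a clique of `G^{∨(k+1)}` with `C_OR(G)^(k+1) ≤ |Q|` such that no three
of its words are pairwise adjacent in the first coordinate only. Then `C_OR(M_3(G)) > C_OR(G)`.
Second part: this holds for every triangle free graph `G` whose capacity is attained at a finite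
power. Third part: an example, the pentagon `pentJoin 1 0`, with capacity `√5`. -/
theorem result :
    (∀ (V : Type) [Finite V] [Nonempty V] (G : SimpleGraph V),
      ∃ c c' : ℝ, IsOrCap G c ∧ IsOrCap (mycielskian G 3) c' ∧
        (∀ (k : ℕ) (Q : Finset (Fin (k + 1) → V)),
          (orPow G (Fin (k + 1))).IsClique (Q : Set (Fin (k + 1) → V)) →
          (∀ x ∈ Q, ∀ y ∈ Q, ∀ z ∈ Q, x ≠ y → y ≠ z → x ≠ z →
            ∃ j, j ≠ 0 ∧ (G.Adj (x j) (y j) ∨ G.Adj (y j) (z j) ∨ G.Adj (x j) (z j))) →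
          c ^ (k + 1) ≤ Q.card → c < c') ∧
        (G.CliqueFree 3 →
          ∀ t : ℕ, 1 ≤ t → c ^ t ≤ (orPow G (Fin t)).cliqueNum → c < c')) ∧
    IsOrCap (pentJoin 1 0) (√5) ∧
    ∃ c' : ℝ, IsOrCap (mycielskian (pentJoin 1 0) 3) c' ∧ √5 < c' := by
  classical
  refine ⟨?_, Three.pent_three⟩
  intro V _ _ G
  obtain ⟨c, hc⟩ := exists_orCap G
  obtain ⟨c', hc'⟩ := exists_orCap (mycielskian G 3)
  have key : ∀ (k : ℕ) (Q : Finset (Fin (k + 1) → V)),
      (orPow G (Fin (k + 1))).IsClique (Q : Set (Fin (k + 1) → V)) →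
      (∀ a b d : Q, Three.rel G Q a b → Three.rel G Q b d → Three.rel G Q a d → False) →
      c ^ (k + 1) ≤ Q.card → c < c' := by
    intro k Q hQ htri hcQ
    have hpos : (0 : ℝ) < Q.card :=
      lt_of_lt_of_le (pow_pos (lt_of_lt_of_le zero_lt_one (one_le_cap hc)) _) hcQ
    have hne : Q.Nonempty := Finset.card_pos.1 (by exact_mod_cast hpos)
    exact Three.main G Q hne hQ htri c c' hc.nonneg hc' hcQ
  refine ⟨c, c', hc, hc', ?_, ?_⟩
  · intro k Q hQ h hcQ
    refine key k Q hQ ?_ hcQ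
    intro a b d hab hbd had
    obtain ⟨j, hj, hadj⟩ := h a.1 a.2 b.1 b.2 d.1 d.2 (fun e => hab.1 (Subtype.ext e))
      (fun e => hbd.1 (Subtype.ext e)) (fun e => had.1 (Subtype.ext e))
    rcases hadj with hadj | hadj | hadj
    · exact hab.2 j hj hadj
    · exact hbd.2 j hj hadj
    · exact had.2 j hj hadj
  · intro hfree t ht hct
    obtain ⟨k, rfl⟩ : ∃ k, t = k + 1 := ⟨t - 1, by omega⟩
    obtain ⟨Q, hQ⟩ := (orPow G (Fin (k + 1))).exists_isNClique_cliqueNum
    rw [← hQ.card_eq] at hct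
    refine key k Q hQ.isClique ?_ hct
    intro a b d hab hbd had
    have h1 := Three.rel_adj hQ.isClique hab
    have h2 := Three.rel_adj hQ.isClique hbd
    have h3 := Three.rel_adj hQ.isClique had
    exact hfree {a.1 0, b.1 0, d.1 0} (SimpleGraph.is3Clique_triple_iff.2 ⟨h1, h3, h2⟩)

end Pool.Agent.Results.MP_5c786f_co.TriangleFreeLevelThree
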